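import Pool.Agent.W564.MM.Defs

/-!
# Ergodic averages of a continuous function of mean zero
-/

set_option autoImplicit false
set_option maxHeartbeats 1000000

open MeasureTheory Filter Topology Finset

namespace Pool.Agent.W975.MM

open Pool.Agent.W564.MM

instance pr1 : IsProbabilityMeasure (volume : Measure T1) := ⟨UnitAddCircle.measure_univ⟩

instance pr2 : IsProbabilityMeasure (volume : Measure (T1 × T1)) := by
  rw [Measure.volume_eq_prod]
  infer_instance

/-- averages -/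
noncomputable def av (a : ℝ) (n : ℕ) (F : T1 × T1 → ℂ) (p : T1 × T1) : ℂ :=
  (n : ℂ)⁻¹ * ∑ j ∈ Finset.range n, F ((SM a)^[j] p)

/-- the averages tend to zero -/
def Good (F : T1 × T1 → ℂ) : Prop := ∀ ε : ℝ, 0 < ε → ∃ n₀ : ℕ, ∀ n, n₀ ≤ n → ∃ a₀ : ℝ,
  ∀ a : ℝ, a₀ ≤ |a| → ∫ p, ‖av a n F p‖ ^ 2 ≤ ε

theorem cont_it (h1 : S_BAS) (a : ℝ) (j : ℕ) : Continuous ((SM a)^[j]) := by
  have h : (SM a)^[j] = fun p => (xx a (j + 1) p, xx a j p) := by
    funext p
    exact h1.2.2.2.1 a j p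
  rw [h]
  exact (h1.2.2.2.2.1 a (j + 1)).prodMk (h1.2.2.2.2.1 a j)

theorem cont_av (h1 : S_BAS) (a : ℝ) (n : ℕ) {F : T1 × T1 → ℂ} (hF : Continuous F) :
    Continuous (av a n F) := by
  unfold av
  exact continuous_const.mul (continuous_finsetSum _ fun j _ => hF.comp (cont_it h1 a j))

theorem intg {E : Type*} [NormedAddCommGroup E] {F : T1 × T1 → E} (hF : Continuous F) :
    Integrable F volume :=
  hF.integrable_of_hasCompactSupport (HasCompactSupport.of_compactSpace F)

theorem av_add (a : ℝ) (n : ℕ) (F G : T1 × T1 → ℂ) (p : T1 × T1) :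
    av a n (fun p => F p + G p) p = av a n F p + av a n G p := by
  unfold av
  rw [Finset.sum_add_distrib]
  ring

theorem av_smul (a : ℝ) (n : ℕ) (c : ℂ) (F : T1 × T1 → ℂ) (p : T1 × T1) :
    av a n (fun p => c * F p) p = c * av a n F p := by
  unfold av
  rw [← Finset.mul_sum]
  ring

theorem av_bd (a : ℝ) (n : ℕ) {F : T1 × T1 → ℂ} {η : ℝ} (hη : 0 ≤ η) (hF : ∀ p, ‖F p‖ ≤ η)
    (p : T1 × T1) : ‖av a n F p‖ ≤ η := by
  unfold av
  rw [norm_mul, norm_inv, Complex.norm_natCast]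
  have h1 : ‖∑ j ∈ Finset.range n, F ((SM a)^[j] p)‖ ≤ n * η := by
    refine (norm_sum_le _ _).trans ?_
    refine (Finset.sum_le_sum fun j _ => hF _).trans ?_
    rw [Finset.sum_const, Finset.card_range, nsmul_eq_mul]
  rcases Nat.eq_zero_or_pos n with h | h
  · rw [h, Nat.cast_zero, inv_zero, zero_mul]
    exact hη
  · have h0 : (0 : ℝ) < n := by exact_mod_cast h
    calc (n : ℝ)⁻¹ * ‖∑ j ∈ Finset.range n, F ((SM a)^[j] p)‖ ≤ (n : ℝ)⁻¹ * (n * η) :=
          mul_le_mul_of_nonneg_left h1 (by positivity)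
      _ = η := by field_simp

theorem sq_add_le (z w : ℂ) : ‖z + w‖ ^ 2 ≤ 2 * ‖z‖ ^ 2 + 2 * ‖w‖ ^ 2 := by
  have h := norm_add_le z w
  have h1 : ‖z + w‖ ^ 2 ≤ (‖z‖ + ‖w‖) ^ 2 := pow_le_pow_left₀ (norm_nonneg _) h 2
  nlinarith [sq_nonneg (‖z‖ - ‖w‖)]

theorem good_add (h1 : S_BAS) {F G : T1 × T1 → ℂ} (hFc : Continuous F) (hGc : Continuous G)
    (hF : Good F) (hG : Good G) : Good (fun p => F p + G p) := by
  intro ε hε
  obtain ⟨n₁, hn₁⟩ := hF (ε / 4) (by linarith)
  obtain ⟨n₂, hn₂⟩ := hG (ε / 4) (by linarith)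
  refine ⟨max n₁ n₂, fun n hn => ?_⟩
  obtain ⟨a₁, ha₁⟩ := hn₁ n (le_trans (le_max_left _ _) hn)
  obtain ⟨a₂, ha₂⟩ := hn₂ n (le_trans (le_max_right _ _) hn)
  refine ⟨max a₁ a₂, fun a ha => ?_⟩
  have e1 := ha₁ a (le_trans (le_max_left _ _) ha)
  have e2 := ha₂ a (le_trans (le_max_right _ _) ha)
  have c1 : Continuous (fun p => ‖av a n F p‖ ^ 2) := ((cont_av h1 a n hFc).norm.pow 2)
  have c2 : Continuous (fun p => ‖av a n G p‖ ^ 2) := ((cont_av h1 a n hGc).norm.pow 2)
  have c3 : Continuous (fun p => ‖av a n (fun p => F p + G p) p‖ ^ 2) :=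
    ((cont_av h1 a n (hFc.add hGc)).norm.pow 2)
  have h : ∫ p, ‖av a n (fun p => F p + G p) p‖ ^ 2 ≤
      ∫ p, (2 * ‖av a n F p‖ ^ 2 + 2 * ‖av a n G p‖ ^ 2) := by
    apply integral_mono (intg c3) (intg ((continuous_const.mul c1).add (continuous_const.mul c2)))
    intro p
    show ‖av a n (fun p => F p + G p) p‖ ^ 2 ≤ 2 * ‖av a n F p‖ ^ 2 + 2 * ‖av a n G p‖ ^ 2
    rw [av_add]
    exact sq_add_le _ _
  rw [integral_add ((intg c1).const_mul 2) ((intg c2).const_mul 2), integral_const_mul,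
    integral_const_mul] at h
  linarith

theorem good_smul {F : T1 × T1 → ℂ} (c : ℂ) (hF : Good F) : Good (fun p => c * F p) := by
  intro ε hε
  obtain ⟨n₁, hn₁⟩ := hF (ε / (‖c‖ ^ 2 + 1)) (by positivity)
  refine ⟨n₁, fun n hn => ?_⟩
  obtain ⟨a₁, ha₁⟩ := hn₁ n hn
  refine ⟨a₁, fun a ha => ?_⟩
  have e1 := ha₁ a ha
  have h : ∫ p, ‖av a n (fun p => c * F p) p‖ ^ 2 = ‖c‖ ^ 2 * ∫ p, ‖av a n F p‖ ^ 2 := by
    rw [← integral_const_mul]
    congr 1
    funext p
    rw [av_smul, norm_mul, mul_pow]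
  rw [h]
  have h0 : 0 ≤ ‖c‖ ^ 2 := by positivity
  calc ‖c‖ ^ 2 * ∫ p, ‖av a n F p‖ ^ 2 ≤ ‖c‖ ^ 2 * (ε / (‖c‖ ^ 2 + 1)) :=
        mul_le_mul_of_nonneg_left e1 h0
    _ ≤ ε := by
        rw [← mul_div_assoc, div_le_iff₀ (by positivity)]
        nlinarith

theorem good_zero : Good (fun _ => 0) := by
  intro ε hε
  refine ⟨0, fun n _ => ⟨0, fun a _ => ?_⟩⟩
  have h : ∀ p, ‖av a n (fun _ => 0) p‖ ^ 2 = 0 := by
    intro p
    unfold av
    simp
  simp only [h, integral_zero]
  exact hε.le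

theorem good_lim (h1 : S_BAS) {F : T1 × T1 → ℂ} (hFc : Continuous F)
    (h : ∀ η : ℝ, 0 < η → ∃ H : T1 × T1 → ℂ, Continuous H ∧ Good H ∧ ∀ p, ‖F p - H p‖ ≤ η) :
    Good F := by
  intro ε hε
  obtain ⟨H, hHc, hH, hFH⟩ := h (Real.sqrt (ε / 4)) (Real.sqrt_pos.2 (by linarith))
  obtain ⟨n₁, hn₁⟩ := hH (ε / 4) (by linarith)
  refine ⟨n₁, fun n hn => ?_⟩
  obtain ⟨a₁, ha₁⟩ := hn₁ n hn
  refine ⟨a₁, fun a ha => ?_⟩
  have e1 := ha₁ a ha
  have c1 : Continuous (fun p => ‖av a n H p‖ ^ 2) := ((cont_av h1 a n hHc).norm.pow 2)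
  have c3 : Continuous (fun p => ‖av a n F p‖ ^ 2) := ((cont_av h1 a n hFc).norm.pow 2)
  have h2 : ∫ p, ‖av a n F p‖ ^ 2 ≤ ∫ p, (2 * ‖av a n H p‖ ^ 2 + 2 * (ε / 4)) := by
    apply integral_mono (intg c3) (intg ((continuous_const.mul c1).add continuous_const))
    intro p
    show ‖av a n F p‖ ^ 2 ≤ 2 * ‖av a n H p‖ ^ 2 + 2 * (ε / 4)
    have e2 : av a n F p = av a n H p + av a n (fun p => F p - H p) p := by
      rw [← av_add]
      congr 1
      funext q
      ring
    have e3 := av_bd a n (Real.sqrt_nonneg _) hFH p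
    have e4 : ‖av a n (fun p => F p - H p) p‖ ^ 2 ≤ ε / 4 := by
      calc ‖av a n (fun p => F p - H p) p‖ ^ 2 ≤ (Real.sqrt (ε / 4)) ^ 2 :=
            pow_le_pow_left₀ (norm_nonneg _) e3 2
        _ = ε / 4 := Real.sq_sqrt (by linarith)
    rw [e2]
    have e5 := sq_add_le (av a n H p) (av a n (fun p => F p - H p) p)
    linarith
  rw [integral_add ((intg c1).const_mul 2) (integrable_const _), integral_const_mul,
    integral_const, probReal_univ, one_smul] at h2
  linarith

/-- the characters -/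
noncomputable def ch (k l : ℤ) (p : T1 × T1) : ℂ := fourier k p.1 * fourier l p.2

theorem ch_cont (k l : ℤ) : Continuous (ch k l) :=
  ((map_continuous (fourier k)).comp continuous_fst).mul
    ((map_continuous (fourier l)).comp continuous_snd)

theorem ch_norm (k l : ℤ) (p : T1 × T1) : ‖ch k l p‖ = 1 := by
  unfold ch
  rw [norm_mul, fourier_apply, fourier_apply, Circle.norm_coe, Circle.norm_coe, one_mul]

/-- the correlations -/
noncomputable def Cm (k l : ℤ) (a : ℝ) (m : ℕ) : ℂ :=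
  ∫ p, ch k l ((SM a)^[m] p) * (starRingEnd ℂ) (ch k l p)

theorem prod_two {M : Type*} [CommMonoid M] (F : ℕ → M) (t : ℕ)
    (hF : ∀ i, 2 ≤ i → i < 2 + t → F i = 1) :
    ∏ i ∈ Finset.range (2 + t), F i = F 0 * F 1 := by
  induction t with
  | zero => simp [Finset.prod_range_succ]
  | succ t ih =>
    rw [← add_assoc, Finset.prod_range_succ, ih (fun i h h' => hF i h (by omega)),
      hF (2 + t) (by omega) (by omega), mul_one]

theorem Cm_small (h1 : S_BAS) (h2 : S_KEY) {k l : ℤ} (hkl : k ≠ 0 ∨ l ≠ 0) (m : ℕ) (hm : 2 ≤ m)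
    (δ : ℝ) (hδ : 0 < δ) : ∃ a₀ : ℝ, ∀ a : ℝ, a₀ ≤ |a| → ‖Cm k l a m‖ ≤ δ := by
  obtain ⟨t, rfl⟩ : ∃ t, m = 2 + t := ⟨m - 2, by omega⟩
  set c : ℕ → ℤ := fun i => if i = 0 then -l else if i = 1 then -k else if i = 2 + t then l
    else if i = 2 + t + 1 then k else 0 with hc
  have c0 : c 0 = -l := by simp [hc]
  have c1 : c 1 = -k := by simp [hc]
  have cm : c (2 + t) = l := by
    show (if 2 + t = 0 then -l else if 2 + t = 1 then -k else if 2 + t = 2 + t then l
      else if 2 + t = 2 + t + 1 then k else 0) = l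
    rw [if_neg (by omega), if_neg (by omega), if_pos rfl]
  have cm1 : c (2 + t + 1) = k := by
    show (if 2 + t + 1 = 0 then -l else if 2 + t + 1 = 1 then -k else if 2 + t + 1 = 2 + t then l
      else if 2 + t + 1 = 2 + t + 1 then k else 0) = k
    rw [if_neg (by omega), if_neg (by omega), if_neg (by omega), if_pos rfl]
  have cz : ∀ i, 2 ≤ i → i < 2 + t → c i = 0 := by
    intro i h h'
    rw [hc]
    simp only
    rw [if_neg (by omega), if_neg (by omega), if_neg (by omega), if_neg (by omega)]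
  have key : ∀ (a : ℝ) (p : T1 × T1), ch k l ((SM a)^[2 + t] p) * (starRingEnd ℂ) (ch k l p) =
      (∏ i ∈ Finset.range (2 + t + 1), (fourier (c i) (xx a i p) : ℂ)) *
        fourier k (xx a (2 + t + 1) p) := by
    intro a p
    rw [Finset.prod_range_succ, prod_two (fun i => (fourier (c i) (xx a i p) : ℂ)) t (by
      intro i h h'
      rw [cz i h h']
      exact fourier_zero), c0, c1, cm, fourier_neg, fourier_neg, h1.2.2.2.1 a (2 + t) p]
    unfold ch
    rw [map_mul]
    have x0 : xx a 0 p = p.2 := rfl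
    have x1 : xx a 1 p = p.1 := rfl
    rw [x0, x1]
    ring
  by_cases hk : k = 0
  · have hl : l ≠ 0 := by
      rcases hkl with h | h
      · exact absurd hk h
      · exact h
    obtain ⟨a₀, ha₀⟩ := h2 (2 + t) (by omega) c (by rw [cm]; exact hl) δ hδ
    refine ⟨a₀, fun a ha => ?_⟩
    have h3 := ha₀ a ha
    have h4 : Cm k l a (2 + t) = ∫ p : T1 × T1, ∏ i ∈ Finset.range (2 + t + 1),
        (fourier (c i) (xx a i p) : ℂ) := by
      unfold Cm
      congr 1
      funext p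
      rw [key a p, hk, fourier_zero, mul_one]
    rw [h4]
    exact h3
  · obtain ⟨a₀, ha₀⟩ := h2 (2 + t + 1) (by omega) c (by rw [cm1]; exact hk) δ hδ
    refine ⟨a₀, fun a ha => ?_⟩
    have h3 := ha₀ a ha
    have h4 : Cm k l a (2 + t) = ∫ p : T1 × T1, ∏ i ∈ Finset.range (2 + t + 1 + 1),
        (fourier (c i) (xx a i p) : ℂ) := by
      unfold Cm
      congr 1
      funext p
      rw [key a p, Finset.prod_range_succ _ (2 + t + 1), cm1]
    rw [h4]
    exact h3

theorem mp_it (h1 : S_BAS) (a : ℝ) (j : ℕ) : MeasurePreserving ((SM a)^[j]) volume volume :=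
  (h1.2.2.2.2.2.1 a).iterate j

theorem shiftC (h1 : S_BAS) (k l : ℤ) (a : ℝ) (m j : ℕ) :
    ∫ p, ch k l ((SM a)^[m + j] p) * (starRingEnd ℂ) (ch k l ((SM a)^[j] p)) = Cm k l a m := by
  unfold Cm
  have hmp := mp_it h1 a j
  have hc : Continuous (fun p => ch k l ((SM a)^[m] p) * (starRingEnd ℂ) (ch k l p)) :=
    ((ch_cont k l).comp (cont_it h1 a m)).mul (Complex.continuous_conj.comp (ch_cont k l))
  have h2 := integral_map (μ := volume) (φ := (SM a)^[j]) hmp.measurable.aemeasurable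
    (f := fun p => ch k l ((SM a)^[m] p) * (starRingEnd ℂ) (ch k l p))
    hc.aestronglyMeasurable
  rw [hmp.map_eq] at h2
  rw [h2]
  simp only [Function.iterate_add_apply]

theorem good_ch (h1 : S_BAS) (h2 : S_KEY) {k l : ℤ} (hkl : k ≠ 0 ∨ l ≠ 0) : Good (ch k l) := by
  intro ε hε
  refine ⟨⌈6 / ε⌉₊ + 1, fun n hn => ?_⟩
  have hn0 : (0 : ℝ) < n := by
    have : 0 < n := by omega
    exact_mod_cast this
  have hn1 : 3 / (n : ℝ) ≤ ε / 2 := by
    have h3 : 6 / ε ≤ n := (Nat.le_ceil _).trans (by exact_mod_cast (by omega : ⌈6 / ε⌉₊ ≤ n))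
    rw [div_le_iff₀ hε] at h3
    rw [div_le_iff₀ hn0]
    linarith
  -- the threshold
  have h3 : ∀ m : ℕ, ∃ a₀ : ℝ, 2 ≤ m → ∀ a : ℝ, a₀ ≤ |a| → ‖Cm k l a m‖ ≤ ε / 2 := by
    intro m
    by_cases hm : 2 ≤ m
    · obtain ⟨a₀, ha₀⟩ := Cm_small h1 h2 hkl m hm (ε / 2) (by linarith)
      exact ⟨a₀, fun _ => ha₀⟩
    · exact ⟨0, fun h => absurd h hm⟩
  choose A hA using h3
  refine ⟨∑ m ∈ Finset.range n, |A m|, fun a ha => ?_⟩
  have hAm : ∀ m, 2 ≤ m → m < n → ‖Cm k l a m‖ ≤ ε / 2 := by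
    intro m hm hmn
    apply hA m hm a
    refine le_trans ?_ ha
    refine (le_abs_self _).trans ?_
    exact Finset.single_le_sum (f := fun m => |A m|) (fun _ _ => abs_nonneg _)
      (Finset.mem_range.2 hmn)
  set cc : ℕ → ℕ → ℂ := fun i j =>
    ∫ p, ch k l ((SM a)^[i] p) * (starRingEnd ℂ) (ch k l ((SM a)^[j] p)) with hcc
  have hccont : ∀ i j, Continuous (fun p => ch k l ((SM a)^[i] p) *
      (starRingEnd ℂ) (ch k l ((SM a)^[j] p))) := fun i j =>
    ((ch_cont k l).comp (cont_it h1 a i)).mul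
      (Complex.continuous_conj.comp ((ch_cont k l).comp (cont_it h1 a j)))
  have hcc1 : ∀ i j, ‖cc i j‖ ≤ 1 := by
    intro i j
    have h4 := norm_integral_le_of_norm_le_const (μ := (volume : Measure (T1 × T1))) (C := 1)
      (f := fun p => ch k l ((SM a)^[i] p) * (starRingEnd ℂ) (ch k l ((SM a)^[j] p)))
      (Filter.Eventually.of_forall fun p => by
        rw [norm_mul, RCLike.norm_conj, ch_norm, ch_norm, one_mul])
    rw [probReal_univ, mul_one] at h4
    exact h4
  have hsymm : ∀ i j, ‖cc i j‖ = ‖cc j i‖ := by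
    intro i j
    have h5 : cc i j = (starRingEnd ℂ) (cc j i) := by
      rw [hcc]
      simp only
      rw [← integral_conj]
      congr 1
      funext p
      rw [map_mul, Complex.conj_conj, mul_comm]
    rw [h5, RCLike.norm_conj]
  have hfar : ∀ i j, i < n → j + 2 ≤ i → ‖cc i j‖ ≤ ε / 2 := by
    intro i j hi hij
    obtain ⟨m, rfl⟩ : ∃ m, i = m + j := ⟨i - j, by omega⟩
    have h6 : cc (m + j) j = Cm k l a m := shiftC h1 k l a m j
    rw [h6]
    exact hAm m (by omega) (by omega)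
  have hall : ∀ i ∈ Finset.range n, ∀ j ∈ Finset.range n,
      ‖cc i j‖ ≤ (if j ∈ Finset.Icc (i - 1) (i + 1) then 1 else 0) + ε / 2 := by
    intro i hi j hj
    rw [Finset.mem_range] at hi hj
    by_cases h7 : j ∈ Finset.Icc (i - 1) (i + 1)
    · rw [if_pos h7]
      have := hcc1 i j
      linarith
    · rw [if_neg h7, zero_add]
      rw [Finset.mem_Icc] at h7
      by_cases h8 : j < i
      · exact hfar i j hi (by omega)
      · rw [hsymm]
        exact hfar j i hj (by omega)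
  have hsum : ∑ i ∈ Finset.range n, ∑ j ∈ Finset.range n, ‖cc i j‖ ≤
      3 * n + n ^ 2 * (ε / 2) := by
    calc ∑ i ∈ Finset.range n, ∑ j ∈ Finset.range n, ‖cc i j‖
        ≤ ∑ i ∈ Finset.range n, ∑ j ∈ Finset.range n,
          ((if j ∈ Finset.Icc (i - 1) (i + 1) then (1 : ℝ) else 0) + ε / 2) :=
          Finset.sum_le_sum fun i hi => Finset.sum_le_sum fun j hj => hall i hi j hj
      _ ≤ ∑ i ∈ Finset.range n, (3 + n * (ε / 2)) := by
          apply Finset.sum_le_sum
          intro i _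
          rw [Finset.sum_add_distrib, Finset.sum_const, Finset.card_range, nsmul_eq_mul]
          have h9 : ∑ j ∈ Finset.range n, (if j ∈ Finset.Icc (i - 1) (i + 1) then (1 : ℝ) else 0)
              ≤ 3 := by
            rw [Finset.sum_ite_mem, Finset.sum_const, nsmul_eq_mul, mul_one]
            have h10 : (Finset.range n ∩ Finset.Icc (i - 1) (i + 1)).card ≤ 3 := by
              refine (Finset.card_le_card Finset.inter_subset_right).trans ?_
              rw [Nat.card_Icc]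
              omega
            exact_mod_cast h10
          linarith
      _ = 3 * n + n ^ 2 * (ε / 2) := by
          rw [Finset.sum_const, Finset.card_range, nsmul_eq_mul]
          ring
  -- the integral
  have hint : ((∫ p, ‖av a n (ch k l) p‖ ^ 2 : ℝ) : ℂ) =
      ((n : ℂ)⁻¹) ^ 2 * ∑ i ∈ Finset.range n, ∑ j ∈ Finset.range n, cc i j := by
    have e1 : ∀ p, ((‖av a n (ch k l) p‖ ^ 2 : ℝ) : ℂ) = ((n : ℂ)⁻¹) ^ 2 *
        ∑ i ∈ Finset.range n, ∑ j ∈ Finset.range n,
          (ch k l ((SM a)^[i] p) * (starRingEnd ℂ) (ch k l ((SM a)^[j] p))) := by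
      intro p
      rw [← Complex.normSq_eq_norm_sq, ← Complex.mul_conj]
      unfold av
      rw [map_mul, map_inv₀, map_natCast, map_sum, ← Finset.sum_mul_sum]
      ring
    rw [← integral_complex_ofReal]
    simp_rw [e1]
    rw [integral_const_mul, integral_finsetSum _ (fun i _ => integrable_finsetSum _
      fun j _ => intg (hccont i j))]
    congr 1
    apply Finset.sum_congr rfl
    intro i _
    rw [integral_finsetSum _ (fun j _ => intg (hccont i j))]
  have hnn : 0 ≤ ∫ p, ‖av a n (ch k l) p‖ ^ 2 := integral_nonneg fun p => by positivity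
  have hnorm : ∫ p, ‖av a n (ch k l) p‖ ^ 2 = ‖((n : ℂ)⁻¹) ^ 2 * ∑ i ∈ Finset.range n,
      ∑ j ∈ Finset.range n, cc i j‖ := by
    rw [← hint, Complex.norm_real, Real.norm_of_nonneg hnn]
  rw [hnorm, norm_mul, norm_pow, norm_inv, Complex.norm_natCast]
  have h11 : ‖∑ i ∈ Finset.range n, ∑ j ∈ Finset.range n, cc i j‖ ≤
      3 * n + n ^ 2 * (ε / 2) := by
    refine (norm_sum_le _ _).trans ?_
    refine le_trans (Finset.sum_le_sum fun i _ => norm_sum_le _ _) hsum
  calc ((n : ℝ)⁻¹) ^ 2 * ‖∑ i ∈ Finset.range n, ∑ j ∈ Finset.range n, cc i j‖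
      ≤ ((n : ℝ)⁻¹) ^ 2 * (3 * n + n ^ 2 * (ε / 2)) :=
        mul_le_mul_of_nonneg_left h11 (by positivity)
    _ = 3 / n + ε / 2 := by field_simp
    _ ≤ ε := by linarith

/-- the map to the torus -/
def ph (p : T1 × T1) : UnitAddTorus (Fin 2) := ![p.1, p.2]

theorem ph_cont : Continuous ph := by
  apply continuous_pi
  intro i
  fin_cases i
  · exact continuous_fst
  · exact continuous_snd

/-- mean of a function on the torus -/
noncomputable def mn (G : C(UnitAddTorus (Fin 2), ℂ)) : ℂ := ∫ q, G (ph q)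

theorem gc (G : C(UnitAddTorus (Fin 2), ℂ)) : Continuous (fun q => G (ph q)) :=
  G.continuous.comp ph_cont

theorem mn_add (G H : C(UnitAddTorus (Fin 2), ℂ)) : mn (G + H) = mn G + mn H := by
  unfold mn
  rw [← integral_add (intg (gc G)) (intg (gc H))]
  rfl

theorem mn_smul (c : ℂ) (G : C(UnitAddTorus (Fin 2), ℂ)) : mn (c • G) = c * mn G := by
  unfold mn
  rw [← integral_const_mul]
  rfl

theorem mn_lip (G H : C(UnitAddTorus (Fin 2), ℂ)) : ‖mn G - mn H‖ ≤ ‖G - H‖ := by
  unfold mn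
  rw [← integral_sub (intg (gc G)) (intg (gc H))]
  have h := norm_integral_le_of_norm_le_const (μ := (volume : Measure (T1 × T1))) (C := ‖G - H‖)
    (f := fun q => G (ph q) - H (ph q))
    (Filter.Eventually.of_forall fun q => (G - H).norm_coe_le_norm (ph q))
  rw [probReal_univ, mul_one] at h
  exact h

/-- the functions with small averages -/
def WW (h1 : S_BAS) : Submodule ℂ C(UnitAddTorus (Fin 2), ℂ) where
  carrier := {G | Good (fun q => G (ph q) - mn G)}
  zero_mem' := by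
    have h : (fun q => (0 : C(UnitAddTorus (Fin 2), ℂ)) (ph q) - mn 0) = fun _ => 0 := by
      funext q
      unfold mn
      simp
    show Good _
    rw [h]
    exact good_zero
  add_mem' {G H} hG hH := by
    show Good _
    have h := good_add h1 ((gc G).sub continuous_const) ((gc H).sub continuous_const) hG hH
    have e : (fun q => (G + H) (ph q) - mn (G + H)) =
        fun q => (G (ph q) - mn G) + (H (ph q) - mn H) := by
      funext q
      rw [mn_add, ContinuousMap.add_apply]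
      ring
    rw [e]
    exact h
  smul_mem' c G hG := by
    show Good _
    have h := good_smul c hG
    have e : (fun q => (c • G) (ph q) - mn (c • G)) = fun q => c * (G (ph q) - mn G) := by
      funext q
      rw [mn_smul, ContinuousMap.smul_apply, smul_eq_mul]
      ring
    rw [e]
    exact h

theorem WW_closed (h1 : S_BAS) : IsClosed (WW h1 : Set C(UnitAddTorus (Fin 2), ℂ)) := by
  apply isClosed_of_closure_subset
  intro G hG
  rw [Metric.mem_closure_iff] at hG
  show Good _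
  apply good_lim h1 ((gc G).sub continuous_const)
  intro η hη
  obtain ⟨H, hH, hd⟩ := hG (η / 2) (by linarith)
  refine ⟨fun q => H (ph q) - mn H, (gc H).sub continuous_const, hH, ?_⟩
  intro q
  rw [dist_eq_norm] at hd
  have e1 := (G - H).norm_coe_le_norm (ph q)
  have e2 := mn_lip G H
  have e3 : (G (ph q) - mn G) - (H (ph q) - mn H) = (G - H) (ph q) - (mn G - mn H) := by
    rw [ContinuousMap.sub_apply]
    ring
  show ‖(G (ph q) - mn G) - (H (ph q) - mn H)‖ ≤ η
  rw [e3]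
  have e4 := norm_sub_le ((G - H) (ph q)) (mn G - mn H)
  linarith

theorem int_fourier {n : ℤ} (hn : n ≠ 0) : ∫ x : T1, (fourier n x : ℂ) = 0 :=
  integral_eq_zero_of_add_right_eq_neg (μ := (volume : Measure T1))
    (fourier_add_half_inv_index hn one_pos)

theorem mF (n : Fin 2 → ℤ) (q : T1 × T1) :
    UnitAddTorus.mFourier n (ph q) = ch (n 0) (n 1) q := by
  show ∏ i, fourier (n i) (ph q i) = _
  rw [Fin.prod_univ_two]
  rfl

theorem mem_WW (h1 : S_BAS) (h2 : S_KEY) (n : Fin 2 → ℤ) : UnitAddTorus.mFourier n ∈ WW h1 := by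
  show Good _
  by_cases hn : n 0 ≠ 0 ∨ n 1 ≠ 0
  · have hm : mn (UnitAddTorus.mFourier n) = 0 := by
      unfold mn
      simp_rw [mF]
      unfold ch
      rw [Measure.volume_eq_prod, integral_prod_mul (fun x : T1 => (fourier (n 0) x : ℂ))
        (fun x : T1 => (fourier (n 1) x : ℂ))]
      rcases hn with h | h
      · rw [int_fourier h, zero_mul]
      · rw [int_fourier h, mul_zero]
    have e : (fun q => UnitAddTorus.mFourier n (ph q) - mn (UnitAddTorus.mFourier n)) =
        ch (n 0) (n 1) := by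
      funext q
      rw [hm, sub_zero, mF]
    rw [e]
    exact good_ch h1 h2 hn
  · push Not at hn
    have hc : ∀ q, UnitAddTorus.mFourier n (ph q) = 1 := by
      intro q
      rw [mF]
      unfold ch
      rw [hn.1, hn.2, fourier_zero, fourier_zero, one_mul]
    have hm : mn (UnitAddTorus.mFourier n) = 1 := by
      unfold mn
      simp_rw [hc]
      rw [integral_const, probReal_univ, one_smul]
    have e : (fun q => UnitAddTorus.mFourier n (ph q) - mn (UnitAddTorus.mFourier n)) =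
        fun _ => 0 := by
      funext q
      rw [hm, hc, sub_self]
    rw [e]
    exact good_zero

theorem avg (h1 : S_BAS) (h2 : S_KEY) : S_AVG := by
  intro g hg ε hε
  have htop : (⊤ : Submodule ℂ C(UnitAddTorus (Fin 2), ℂ)) ≤ WW h1 := by
    rw [← UnitAddTorus.span_mFourier_closure_eq_top]
    apply Submodule.topologicalClosure_minimal _ _ (WW_closed h1)
    rw [Submodule.span_le]
    rintro _ ⟨n, rfl⟩
    exact mem_WW h1 h2 n
  set G : C(UnitAddTorus (Fin 2), ℂ) := ⟨fun x => g (x 0, x 1),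
    g.continuous.comp ((continuous_apply 0).prodMk (continuous_apply 1))⟩ with hG
  have hGph : ∀ q, G (ph q) = g q := fun q => rfl
  have hmG : mn G = 0 := by
    unfold mn
    simp_rw [hGph]
    exact hg
  have hgood : Good (fun q => G (ph q) - mn G) := htop (Submodule.mem_top (x := G))
  have e : (fun q => G (ph q) - mn G) = fun q => g q := by
    funext q
    rw [hmG, sub_zero, hGph]
  rw [e] at hgood
  obtain ⟨n₀, hn₀⟩ := hgood ε hε
  refine ⟨max n₀ 1, le_max_right _ _, ?_⟩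
  obtain ⟨a₀, ha₀⟩ := hn₀ (max n₀ 1) (le_max_left _ _)
  exact ⟨a₀, fun a ha => ha₀ a ha⟩

end Pool.Agent.W975.MM
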